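import Pool.Agent.D0H10.BP.Fin
import Pool.Agent.D0H10.BP.Ex2

/-!
# Parity of the number of partitions into bounded parts (MP_ebc808_nt)

Let `p_A(n)` be the number of the partitions of `n` with all parts in `A`; for `A = {1, …, m}` this is the
number of the partitions of `n` into at most `m` parts, which is `p(n)` for `n ≤ m`. The results are
deterministic; `A` is finite and `n → ∞`, and then `A` increases.

1. Exact equidistribution, for every `m`. Let `T(m) = ∑_{j ≤ m} 2^(v_2(j)) = 2^B + 1 + v` with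
`0 ≤ v < 2^B` (every `T(m) ≥ 2` has this form). For every polynomial `a` over `F_2` which is divisible by
`(1 - X)^v` and not by `(1 - X)^(v + 1)`, the linear combination `∑_j a_j p_A(n - j)`,
`A = {1, …, m}`, is odd for exactly half of the `n` (natural density), also in every residue class modulo
`M` with `v_2(M) ≤ B`. For `v = 0` these are all combinations with an odd number of terms: so the
number of the partitions of `n` into at most `m` parts is odd for exactly half of the `n` if
`m = 2, 5, 65, 769, 2625, …`, in particular for the infinitely many `m = 2^(2^r - 2) + 1`.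

2. If `l = m - 1` is a prime, then the number of the partitions of `n` into at most `m` parts is odd with
the density `1/2 + O(1/m)`; the same for all linear combinations `∑_j a_j p_A(n - j)` with an odd number of
terms, in all residue classes modulo `M`, `l ∤ M`.

3. Let `A` be a set of positive integers, and let `Λ` be the set of the primes which belong to `A` and
divide no other element of `A`. If `∑_{p ∈ Λ} 1/p` diverges, then all parity patterns become uniformly
distributed along all residue classes: the density of the `n ≡ r (mod M)` with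
`p_{A(x)}(n + i) ≡ e_i (mod 2)` for all `i < k`, where `A(x) = A ∩ [1, x]`, tends to `1 / (M 2^k)` for
`x → ∞`. This applies to the set of all primes, and to its union with an arbitrary finite set of parts.

Proof. If a prime `l ∈ A` divides no other element of `A`, then the sequence of the parities is the sum of a
nonconstant sequence `u` of period `l` and of one of a period prime to `l`, so that the mean of
`(-1)^(p_A(n))` contains the factor `1 - 2 w / l`, `w` the weight of `u`. In 2., `u(n)` is the parity of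
the residue of `n` modulo `l` up to a constant, because `∏_{0 < j < l} (1 - ζ^j) = l` is odd. In 1., `T(m)`
is the multiplicity of the root 1 of `∏_{j ≤ m} (1 - X^j)` modulo 2 and the other roots have
multiplicities `≤ 2^B`; so the shift by `h = 2^B N`, `N` odd, changes the parity for all `n`.
(Modules by helper12 and helper70.)
-/

set_option autoImplicit false

open scoped Classical

namespace Pool.Agent.Results.MP_ebc808_nt.BoundedParts

open Finset Filter

/-- the number of the partitions of `n` all of whose parts are elements of `A` -/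
noncomputable def partitionsInto (A : Set ℕ) (n : ℕ) : ℕ :=
  (Nat.Partition.restricted n (· ∈ A)).card

/-- the set `S` of natural numbers has the natural density `δ` -/
def HasDensity (S : Set ℕ) (δ : ℝ) : Prop :=
  Tendsto (fun N : ℕ => (((range N).filter (· ∈ S)).card : ℝ) / (N : ℝ)) atTop (nhds δ)

/-- `∑_{j ≤ m} 2 ^ (v_2 (j))` -/
def twoSum (m : ℕ) : ℕ := ∑ j ∈ Icc 1 m, 2 ^ padicValNat 2 j

/-- the linear combination `∑_j a_j c (n + d - j)` modulo 2, `d` the degree of `a` -/
noncomputable def comb (c : ℕ → ℕ) (a : Polynomial (ZMod 2)) (n : ℕ) : ZMod 2 :=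
  ∑ j ∈ range (a.natDegree + 1), a.coeff j * (c (n + a.natDegree - j) : ZMod 2)

/-- the `n` in the residue class `r` modulo `M` with `c (n + i) ≡ e i (mod 2)` for all `i < k` -/
def patternSet (c : ℕ → ℕ) {k : ℕ} (e : Fin k → ZMod 2) (M r : ℕ) : Set ℕ :=
  {n | n ≡ r [MOD M] ∧ ∀ i : Fin k, (c (n + i) : ZMod 2) = e i}

/-- `p` is a prime element of `A` and divides no other positive element of `A` -/
def Lonely (A : Set ℕ) (p : ℕ) : Prop := p.Prime ∧ p ∈ A ∧ ∀ a ∈ A, 0 < a → a ≠ p → ¬ p ∣ a

section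

open Pool.Agent.D0H10.BP (HasMean cls mean_cls cls_abs cls_per par)
open Pool.Agent.D0H10.PS (sg abs_sg sg_zero sg_one zmod2 pA sg_add)

lemma odd_density (S : ℕ → ZMod 2) (M r : ℕ) (hM : 0 < M) (μ : ℝ)
    (h : HasMean (fun n => cls M r n * sg (S n)) μ) :
    HasDensity {n | n ≡ r [MOD M] ∧ S n = 1} ((1 / M - μ) / 2) := by
  have h1 := ((mean_cls M r hM).sub h).div_const 2
  refine h1.congr fun N => ?_
  rw [← sub_div, ← sum_sub_distrib, div_right_comm]
  congr 1
  rw [card_filter, sum_div]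
  push_cast
  refine sum_congr rfl fun n _ => ?_
  unfold Pool.Agent.D0H10.BP.cls
  simp only [Set.mem_ofPred_eq]
  by_cases h2 : n ≡ r [MOD M]
  · rcases zmod2 (S n) with h3 | h3
    · have h4 : ¬ (n ≡ r [MOD M] ∧ S n = 1) := fun h => by
        rw [h3] at h
        exact absurd h.2 (by decide)
      rw [if_pos h2, if_neg h4, h3, sg_zero]
      norm_num
    · rw [if_pos h2, if_pos ⟨h2, h3⟩, h3, sg_one]
      norm_num
  · rw [if_neg h2, if_neg (fun h => h2 h.1)]
    norm_num

/-- a function which changes its sign under a shift has the mean zero -/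
lemma zero_mean (F : ℕ → ℝ) (H : ℕ) (hb : ∀ n, |F n| ≤ 1) (hF : ∀ n, F (n + H) = -F n) :
    HasMean F 0 := by
  have hbound : ∀ N : ℕ, |∑ n ∈ range N, F n| ≤ H := by
    intro N
    have h1 : ∑ n ∈ range (H + N), F n = ∑ n ∈ range H, F n - ∑ n ∈ range N, F n := by
      rw [sum_range_add, sub_eq_add_neg, ← sum_neg_distrib]
      congr 1
      refine sum_congr rfl fun n _ => ?_
      rw [add_comm, hF]
    have h2 : ∑ n ∈ range (N + H), F n = ∑ n ∈ range N, F n + ∑ n ∈ range H, F (N + n) :=
      sum_range_add _ _ _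
    rw [add_comm N H] at h2
    have h3 : 2 * ∑ n ∈ range N, F n = ∑ n ∈ range H, F n - ∑ n ∈ range H, F (N + n) := by
      linarith
    have h4 : |∑ n ∈ range H, F n| ≤ H := by
      calc |∑ n ∈ range H, F n| ≤ ∑ n ∈ range H, |F n| := abs_sum_le_sum_abs _ _
        _ ≤ ∑ _n ∈ range H, (1 : ℝ) := sum_le_sum fun n _ => hb n
        _ = H := by simp
    have h5 : |∑ n ∈ range H, F (N + n)| ≤ H := by
      calc |∑ n ∈ range H, F (N + n)| ≤ ∑ n ∈ range H, |F (N + n)| := abs_sum_le_sum_abs _ _
        _ ≤ ∑ _n ∈ range H, (1 : ℝ) := sum_le_sum fun n _ => hb _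
        _ = H := by simp
    have h6 : |2 * ∑ n ∈ range N, F n| ≤ H + H := by
      rw [h3]
      exact (abs_sub _ _).trans (add_le_add h4 h5)
    rw [abs_mul, abs_two] at h6
    linarith
  unfold Pool.Agent.D0H10.BP.HasMean
  refine squeeze_zero_norm ?_ (tendsto_const_div_atTop_nhds_zero_nat (H : ℝ))
  intro N
  rw [Real.norm_eq_abs, abs_div, abs_of_nonneg (Nat.cast_nonneg N : (0 : ℝ) ≤ N)]
  gcongr
  exact hbound N

lemma sg_add_one (z : ZMod 2) : sg (z + 1) = -sg z := by
  rcases zmod2 z with h | h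
  · rw [h, zero_add, sg_zero, sg_one]
  · rw [h, show (1 : ZMod 2) + 1 = 0 by decide, sg_zero, sg_one, neg_neg]

lemma shift_mul {S : ℕ → ZMod 2} {h : ℕ} (hS : ∀ n, S (n + h) = S n + 1) (k n : ℕ) :
    S (n + h * k) = S n + k := by
  induction k with
  | zero => simp
  | succ k ih =>
    rw [mul_add, mul_one, ← add_assoc, hS, ih]
    push_cast
    ring

/-- the exact statement from the shift -/
lemma exact_of (S : ℕ → ZMod 2) (h B M r M' : ℕ) (hM : 0 < M) (hS : ∀ n, S (n + h) = S n + 1)
    (hBh : 2 ^ B ∣ h) (hM' : Odd M') (hMd : M ∣ 2 ^ B * M') :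
    HasDensity {n | n ≡ r [MOD M] ∧ S n = 1} (1 / (2 * M)) := by
  have h1 : HasMean (fun n => cls M r n * sg (S n)) 0 := by
    refine zero_mean _ (h * M') (fun n => ?_) fun n => ?_
    · rw [abs_mul, abs_sg, mul_one]
      exact cls_abs M r n
    · have h2 : cls M r (n + h * M') = cls M r n :=
        cls_per M r (h * M') (hMd.trans (Nat.mul_dvd_mul_right hBh M')) n
      have h3 : (M' : ZMod 2) = 1 := Pool.Agent.D0H10.BP.odd_cast hM'
      rw [h2, shift_mul hS, h3, sg_add_one]
      ring
  have h2 := odd_density S M r hM 0 h1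
  have e : ((1 / M - 0) / 2 : ℝ) = 1 / (2 * M) := by
    rw [sub_zero, div_div, mul_comm]
  rw [e] at h2
  exact h2

lemma twoSum_eq (m : ℕ) : twoSum m = Pool.Agent.D0H70.BP.TT m := by
  unfold twoSum Pool.Agent.D0H70.BP.TT Pool.Agent.D0H70.BP.vv
  refine sum_congr rfl fun j _ => ?_
  rw [Nat.factorization_def j Nat.prime_two]

lemma twoSum_special (r : ℕ) (hr : 2 ≤ r) :
    twoSum (2 ^ (2 ^ r - 2) + 1) = 2 ^ (r + (2 ^ r - 2) - 1) + 1 + 0 := by
  obtain ⟨k, hk⟩ : ∃ k, k = 2 ^ r - 2 := ⟨_, rfl⟩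
  have h4 : 4 ≤ 2 ^ r := by
    calc 4 = 2 ^ 2 := by norm_num
      _ ≤ 2 ^ r := Nat.pow_le_pow_right (by norm_num) hr
  have hk2 : k + 2 = 2 ^ r := by omega
  rw [← hk, twoSum_eq, Pool.Agent.D0H70.BP.TT_succ]
  have hB : Pool.Agent.D0H70.BP.TT (2 ^ k) = 2 ^ (r + k - 1) := by
    have h5 := Pool.Agent.D0H70.BP.TT_pow k
    rw [hk2, ← pow_add] at h5
    have h6 : 2 ^ (r + k) = 2 * 2 ^ (r + k - 1) := by
      rw [← pow_succ']; congr 1; omega
    omega
  have hodd : ¬ 2 ∣ 2 ^ k + 1 := by
    intro h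
    have h3 : 2 ∣ 2 ^ k := dvd_pow_self 2 (by omega)
    omega
  rw [hB, Pool.Agent.D0H70.BP.vv_odd hodd, pow_zero, add_zero]

/-- the bias of the parity of the residue -/
lemma par_bias (l d : ℕ) (a : Polynomial (ZMod 2)) (ha : a.eval 1 = 1)
    (hd : a.natDegree = d) :
    |∑ x ∈ range l, sg (∑ j ∈ range (d + 1), a.coeff j * par l (x + d - j))| ≤ d + 1 := by
  by_cases hdl : l ≤ d
  · calc |∑ x ∈ range l, sg (∑ j ∈ range (d + 1), a.coeff j * par l (x + d - j))| ≤
          ∑ x ∈ range l, |sg (∑ j ∈ range (d + 1), a.coeff j * par l (x + d - j))| :=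
          abs_sum_le_sum_abs _ _
      _ = l := by simp [abs_sg]
      _ ≤ d + 1 := by
          have : (l : ℝ) ≤ d := by exact_mod_cast hdl
          linarith
  · rw [not_le] at hdl
    have hsum1 : ∑ j ∈ range (d + 1), a.coeff j = 1 := by
      have h1 := Polynomial.eval_eq_sum_range' (p := a) (n := d + 1) (by omega) 1
      rw [ha] at h1
      simpa using h1.symm
    -- for small `x` the sum is `x + const`
    have hval : ∀ x, x < l - d → ∑ j ∈ range (d + 1), a.coeff j * par l (x + d - j) =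
        (x : ZMod 2) + ∑ j ∈ range (d + 1), a.coeff j * ((d - j : ℕ) : ZMod 2) := by
      intro x hx
      have h1 : ∀ j ∈ range (d + 1), a.coeff j * par l (x + d - j) =
          a.coeff j * (x : ZMod 2) + a.coeff j * ((d - j : ℕ) : ZMod 2) := by
        intro j hj
        rw [mem_range] at hj
        unfold Pool.Agent.D0H10.BP.par
        rw [Nat.mod_eq_of_lt (by omega), show x + d - j = x + (d - j) by omega]
        push_cast
        ring
      rw [sum_congr rfl h1, sum_add_distrib, ← sum_mul, hsum1, one_mul]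
    have halt : ∀ n : ℕ, |∑ x ∈ range n, ((-1 : ℝ)) ^ x| ≤ 1 := by
      intro n
      rw [neg_one_geom_sum]
      split_ifs <;> simp
    have hsgc : ∀ x : ℕ, sg (x : ZMod 2) = (-1) ^ x := by
      intro x
      induction x with
      | zero => simp [sg_zero]
      | succ x ih =>
        push_cast
        rw [sg_add_one, ih, pow_succ]
        ring
    have h2 : ∑ x ∈ range l, sg (∑ j ∈ range (d + 1), a.coeff j * par l (x + d - j)) =
        ∑ x ∈ range (l - d), sg (∑ j ∈ range (d + 1), a.coeff j * par l (x + d - j)) +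
        ∑ x ∈ range d, sg (∑ j ∈ range (d + 1), a.coeff j * par l ((l - d) + x + d - j)) := by
      have e : l = (l - d) + d := by omega
      conv_lhs => rw [show range l = range ((l - d) + d) by rw [← e]]
      rw [sum_range_add]
    rw [h2]
    have h3 : |∑ x ∈ range (l - d), sg (∑ j ∈ range (d + 1), a.coeff j * par l (x + d - j))| ≤ 1 := by
      rw [sum_congr rfl fun x hx => by rw [hval x (mem_range.1 hx), sg_add, hsgc], ← sum_mul,
        abs_mul, abs_sg, mul_one]
      exact halt _
    have h4 : |∑ x ∈ range d, sg (∑ j ∈ range (d + 1), a.coeff j * par l ((l - d) + x + d - j))| ≤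
        d := by
      calc _ ≤ ∑ x ∈ range d, |sg (∑ j ∈ range (d + 1), a.coeff j *
            par l ((l - d) + x + d - j))| := abs_sum_le_sum_abs _ _
        _ = d := by simp [abs_sg]
    exact (abs_add_le _ _).trans ((add_le_add h3 h4).trans (le_of_eq (by ring)))

/-- part 2 -/
lemma prime_case (l : ℕ) (hl : l.Prime) (hl2 : l ≠ 2) (M r : ℕ) (hM : 0 < M) (hlM : ¬ l ∣ M)
    (a : Polynomial (ZMod 2)) (ha : a.eval 1 = 1) :
    ∃ D : ℝ, HasDensity {n | n ≡ r [MOD M] ∧ comb (partitionsInto (Set.Icc 1 (l + 1))) a n = 1} D ∧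
      |D - 1 / (2 * M)| ≤ (a.natDegree + 1) / (2 * l) := by
  obtain ⟨N, hN0, hlN, hMN, hper⟩ := Pool.Agent.D0H10.BP.t_STU Pool.Agent.D0H70.BP.t_STAR
    Pool.Agent.D0H10.BP.t_DEC l M hl hl2 hM hlM
  set d := a.natDegree with hd
  set U : ℕ → ZMod 2 := fun n => ∑ j ∈ range (d + 1), a.coeff j * par l (n + d - j) with hU
  set S : ℕ → ZMod 2 := fun n => comb (partitionsInto (Set.Icc 1 (l + 1))) a n with hS
  have hUp : Function.Periodic U l := by
    intro n
    simp only [hU]
    refine sum_congr rfl fun j hj => ?_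
    rw [mem_range] at hj
    rw [show n + l + d - j = n + d - j + l by omega, Pool.Agent.D0H10.BP.par_per]
  have hSU : Function.Periodic (fun n => S n + U n) N := by
    intro n
    simp only [hU, hS]
    unfold comb
    rw [← sum_add_distrib, ← sum_add_distrib]
    refine sum_congr rfl fun j hj => ?_
    rw [mem_range] at hj
    rw [← mul_add, ← mul_add, ← hd, show n + N + d - j = n + d - j + N by omega]
    congr 1
    exact hper (n + d - j)
  have hSp : Function.Periodic S (l * N) := by
    intro n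
    have e1 : Function.Periodic U (l * N) := by
      intro m
      have := hUp.nat_mul N m
      rw [Nat.cast_id] at this
      rw [mul_comm l]
      exact this
    have e2 : Function.Periodic (fun n => S n + U n) (l * N) := by
      intro m
      have := hSU.nat_mul l m
      rw [Nat.cast_id] at this
      exact this
    have e3 := e2 n
    simp only at e3
    rw [e1 n] at e3
    exact add_right_cancel e3
  obtain ⟨μ, hμ1, hμ2⟩ := Pool.Agent.D0H12.BP.t_PROD Pool.Agent.D0H12.BP.t_MEAN {l} (cls M r) S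
    (fun _ => U) (fun _ => N) (cls_abs M r) (by
      intro l' hl'
      rw [mem_singleton] at hl'
      subst hl'
      refine ⟨hl, hN0, hlN, cls_per M r _ hMN, hUp, hSU, ?_⟩
      intro l'' h1 h2
      rw [mem_singleton] at h1
      exact absurd h1 h2)
    ⟨l * N, Nat.mul_pos hl.pos hN0, cls_per M r _ (hMN.mul_left _), hSp⟩
  rw [prod_singleton] at hμ2
  refine ⟨(1 / M - μ) / 2, odd_density S M r hM μ hμ1, ?_⟩
  have hl' : (0 : ℝ) < l := by exact_mod_cast hl.pos
  have h1 : |μ| ≤ (d + 1) / l := by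
    refine hμ2.trans ?_
    gcongr
    exact par_bias l d a ha rfl
  have e : (1 / (M : ℝ) - μ) / 2 - 1 / (2 * M) = -(μ / 2) := by
    rw [← div_div, div_right_comm]
    ring
  rw [e, abs_neg, abs_div, abs_two]
  calc |μ| / 2 ≤ (d + 1) / l / 2 := by gcongr
    _ = (d + 1) / (2 * l) := by
      rw [div_div, mul_comm]

/-- part 3 -/
lemma lonely_case (A : Set ℕ)
    (hA : ¬ Summable (Set.indicator {p : ℕ | Lonely A p} fun p : ℕ => 1 / (p : ℝ)))
    (k M r : ℕ) (e : Fin k → ZMod 2) (hM : 0 < M) (ε : ℝ) (hε : 0 < ε) :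
    ∃ x₀ : ℕ, ∀ x : ℕ, x₀ ≤ x → ∃ D : ℝ,
      HasDensity (patternSet (partitionsInto (A ∩ Set.Icc 1 x)) e M r) D ∧
        |D - 1 / (M * 2 ^ k)| < ε := by
  obtain ⟨𝓛, hne, h𝓛, hprod⟩ := Pool.Agent.D0H10.BP.small_prod _ hA (M + k + 2) ε hε
  refine ⟨𝓛.sup id, fun x hx => ?_⟩
  have hlx : ∀ l ∈ 𝓛, l ≤ x := fun l hl => (Finset.le_sup (f := id) hl).trans hx
  set Ax : Finset ℕ := (Icc 1 x).filter (· ∈ A) with hAx
  have hAxset : (Ax : Set ℕ) = A ∩ Set.Icc 1 x := by
    ext a
    rw [hAx, coe_filter, Set.mem_ofPred_eq, mem_Icc, Set.mem_inter_iff, Set.mem_Icc]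
    exact and_comm
  obtain ⟨D, hD1, hD2⟩ := Pool.Agent.D0H10.BP.density_pattern (pA (Ax : Set ℕ)) k M r hM
    (∏ l ∈ 𝓛, (1 - 2 / (l : ℝ))) (fun s hs =>
      Pool.Agent.D0H10.BP.mean_pattern Ax (fun a ha => by
        rw [hAx, mem_filter, mem_Icc] at ha
        omega) 𝓛 M r k s hs hM hne (fun l hl => by
        obtain ⟨⟨h1, h2, h3⟩, h4⟩ := h𝓛 l hl
        refine ⟨h1, by omega, ?_, ?_, fun h => ?_, by omega⟩
        · rw [hAx, mem_filter, mem_Icc]
          exact ⟨⟨h1.pos, hlx l hl⟩, h2⟩
        · intro b hb hne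
          rw [hAx, mem_filter, mem_Icc] at hb
          exact h3 b hb.2 (by omega) hne
        · have := Nat.le_of_dvd hM h
          omega))
    (prod_nonneg fun l hl => by
      have h2 : (2 : ℝ) < l := by
        have := (h𝓛 l hl).2
        exact_mod_cast (by omega : 2 < l)
      rw [sub_nonneg, div_le_one (by linarith)]
      exact h2.le) e
  refine ⟨D, ?_, lt_of_le_of_lt hD2 hprod⟩
  rw [← hAxset]
  exact hD1

/-- the primes together with a finite set -/
lemma primes_case (F : Finset ℕ) : ¬ Summable (Set.indicator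
    {p : ℕ | Lonely ({q : ℕ | q.Prime} ∪ (F : Set ℕ)) p} fun p : ℕ => 1 / (p : ℝ)) := by
  intro h
  apply not_summable_one_div_on_primes
  have h2 : Summable (fun p : ℕ => if p ∈ range (F.sup id + 1) then (1 : ℝ) else 0) :=
    summable_of_ne_finset_zero (s := range (F.sup id + 1)) fun p hp => if_neg hp
  refine Summable.of_nonneg_of_le (fun p => Set.indicator_nonneg (fun _ _ => by positivity) p)
    (fun p => ?_) (h.add h2)
  by_cases hp : p.Prime
  · rw [Set.indicator_of_mem (by exact hp)]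
    by_cases hF : F.sup id < p
    · have h3 : Lonely ({q : ℕ | q.Prime} ∪ (F : Set ℕ)) p := by
        refine ⟨hp, Or.inl hp, fun a ha ha0 hne hd => ?_⟩
        rcases ha with ha | ha
        · exact hne.symm ((Nat.prime_dvd_prime_iff_eq hp ha).1 hd)
        · have h4 : a ≤ F.sup id := Finset.le_sup (f := id) (by exact ha)
          have h5 := Nat.le_of_dvd ha0 hd
          omega
      rw [Set.indicator_of_mem (by exact h3)]
      have : (0 : ℝ) ≤ if p ∈ range (F.sup id + 1) then (1 : ℝ) else 0 := by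
        split_ifs <;> norm_num
      linarith
    · rw [if_pos (mem_range.2 (by omega))]
      have h3 : (1 : ℝ) / p ≤ 1 := by
        have : (1 : ℝ) ≤ p := by exact_mod_cast hp.one_lt.le
        rw [div_le_one (by linarith)]
        exact this
      have h4 := Set.indicator_nonneg (s := {p : ℕ | Lonely ({q : ℕ | q.Prime} ∪ (F : Set ℕ)) p})
        (f := fun p : ℕ => 1 / (p : ℝ)) (fun _ _ => by positivity) p
      linarith
  · rw [Set.indicator_of_notMem (by exact hp)]
    have h4 := Set.indicator_nonneg (s := {p : ℕ | Lonely ({q : ℕ | q.Prime} ∪ (F : Set ℕ)) p})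
      (f := fun p : ℕ => 1 / (p : ℝ)) (fun _ _ => by positivity) p
    have : (0 : ℝ) ≤ if p ∈ range (F.sup id + 1) then (1 : ℝ) else 0 := by
      split_ifs <;> norm_num
    linarith

end

/-- **Parity of partitions into bounded parts.** -/
theorem result :
    -- 1. exact equidistribution
    (∀ m B v : ℕ, 1 ≤ m → twoSum m = 2 ^ B + 1 + v → v < 2 ^ B → ∀ b : Polynomial (ZMod 2),
      b.eval 1 = 1 → ∀ M r M' : ℕ, 0 < M → Odd M' → M ∣ 2 ^ B * M' →
      HasDensity {n | n ≡ r [MOD M] ∧
        comb (partitionsInto (Set.Icc 1 m)) ((1 - Polynomial.X) ^ v * b) n = 1} (1 / (2 * M))) ∧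
    (∀ r : ℕ, 2 ≤ r →
      HasDensity {n | Odd (partitionsInto (Set.Icc 1 (2 ^ (2 ^ r - 2) + 1)) n)} (1 / 2)) ∧
    -- 2. parts up to `l + 1`, `l` a prime
    (∀ l : ℕ, l.Prime → l ≠ 2 → ∀ M r : ℕ, 0 < M → ¬ l ∣ M → ∀ a : Polynomial (ZMod 2),
      a.eval 1 = 1 → ∃ D : ℝ,
        HasDensity {n | n ≡ r [MOD M] ∧ comb (partitionsInto (Set.Icc 1 (l + 1))) a n = 1} D ∧
        |D - 1 / (2 * M)| ≤ (a.natDegree + 1) / (2 * l)) ∧
    -- 3. sets with many lonely primes
    (∀ A : Set ℕ, ¬ Summable (Set.indicator {p : ℕ | Lonely A p} fun p : ℕ => 1 / (p : ℝ)) →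
      ∀ (k M r : ℕ) (e : Fin k → ZMod 2), 0 < M → ∀ ε : ℝ, 0 < ε → ∃ x₀ : ℕ, ∀ x : ℕ, x₀ ≤ x →
        ∃ D : ℝ, HasDensity (patternSet (partitionsInto (A ∩ Set.Icc 1 x)) e M r) D ∧
          |D - 1 / (M * 2 ^ k)| < ε) ∧
    ∀ F : Finset ℕ, ¬ Summable (Set.indicator
      {p : ℕ | Lonely ({q : ℕ | q.Prime} ∪ (F : Set ℕ)) p} fun p : ℕ => 1 / (p : ℝ)) := by
  refine ⟨?_, ?_, fun l hl hl2 M r hM hlM a ha => prime_case l hl hl2 M r hM hlM a ha,
    fun A hA k M r e hM ε hε => lonely_case A hA k M r e hM ε hε, primes_case⟩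
  · intro m B v hm hB hv b hb M r M' hM hM' hMd
    rw [twoSum_eq] at hB
    obtain ⟨h, -, hBh, hS⟩ := Pool.Agent.D0H10.BP.t_EX2 m B v hm hB hv
    exact exact_of _ h B M r M' hM (hS _ b rfl hb) hBh hM' hMd
  · intro r hr
    have hT := twoSum_special r hr
    rw [twoSum_eq] at hT
    obtain ⟨h, -, hBh, hS⟩ := Pool.Agent.D0H10.BP.t_EX2 _ _ 0 (Nat.le_add_left 1 _) hT (by positivity)
    have h1 := exact_of _ h _ 1 0 1 one_pos (hS 1 1 (by simp) (by simp)) hBh odd_one (one_dvd _)
    have e1 : {n | n ≡ 0 [MOD 1] ∧ Pool.Agent.D0H10.BP.comb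
        (Pool.Agent.D0H10.PS.pA (Set.Icc 1 (2 ^ (2 ^ r - 2) + 1))) 1 n = 1} =
        {n | Odd (partitionsInto (Set.Icc 1 (2 ^ (2 ^ r - 2) + 1)) n)} := by
      ext n
      simp only [Set.mem_ofPred_eq]
      have h2 : Pool.Agent.D0H10.BP.comb
          (Pool.Agent.D0H10.PS.pA (Set.Icc 1 (2 ^ (2 ^ r - 2) + 1))) 1 n =
          ((partitionsInto (Set.Icc 1 (2 ^ (2 ^ r - 2) + 1)) n : ℕ) : ZMod 2) := by
        unfold Pool.Agent.D0H10.BP.comb
        simp
        rfl
      rw [h2, ZMod.natCast_eq_one_iff_odd]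
      exact ⟨fun h => h.2, fun h => ⟨Nat.modEq_one, h⟩⟩
    rw [e1] at h1
    have e2 : (1 / (2 * ((1 : ℕ) : ℝ))) = 1 / 2 := by norm_num
    rw [e2] at h1
    exact h1

end Pool.Agent.Results.MP_ebc808_nt.BoundedParts
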