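import Pool.Agent.D0H88.PT.Fin5

set_option autoImplicit false

/-!
# Linear parity patterns of the partition function: `√x (log x) ^ (1 - ε)` (MP_ebc808_nt)

Let `S(n) = ∑_{i ≤ L} c_i p(2 ^ b (n + i) + ρ)` modulo 2 be any nonzero linear pattern of the partition
function along a progression modulo `2 ^ b` (`b = 0` is allowed), and let `u : ℕ → F_2` be any function
for which the matrix `u(2 ^ k m + r)` (rows: the last `k` binary digits `r`, columns: the other digits
`m`) has rank at most `d` over `F_2`, `2 d + C ≤ k`, `C` depending only on `L`. For every `ε > 0` and all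
large `x` (depending on `L, b, ρ, k, d, ε`, not on `c` and `u`) at least `√x (log x) ^ (1 - ε)` of the
`n ≤ x` satisfy `S(n) + u(n) = κ`, for both values of `κ`.

* `u = 0`: both values of every nonzero pattern are taken that often, for instance `p(n)` and `p(n + h)`
  differ, and agree, that often. For patterns of at least two terms the best results were
  `√x (log log x) ^ K / log x` (odd) and `C √x` (even), the starting file `PatternCounts`; for one term
  `√x (log x) ^ (1 - ε)` (`OddValues`, `OddProgressions`) and `c √x log x` (`EvenValues`).
* Automatic sequences in bases `2 ^ j`, and all functions computed in one pass over the binary digits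
  with a memory of `d` states, have rank at most `d` for every `k`. (Starting files `AutomaticSequences`,
  `JointDilatePatterns`, with `√x (log log x) ^ K / log x`.) Here `d` may be as large as `(k - C) / 2`:
  the blocks `(S(2 ^ k m), …, S(2 ^ k m + 2 ^ k - 1))` are outside every linear subspace of dimension at
  most `(k - C) / 2` of `F_2 ^ (2 ^ k)` for at least `√x (log x) ^ (1 - ε)` of the `m ≤ x`.

Method. (1) Two terms, `p(n) + p(n + H)`, `H = 3 ^ τ H₁` with `τ` even and `3 ∤ H₁`. Let `M = 4 ^ r`,
`m = (M - 1) / 3`, `D = X ∏ (1 - X ^ n) ^ 24`. Modulo 2 the sum of the `p(n - M g_j) + p(n + H - M g_j)`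
over the pentagonal numbers is, up to the boundary, the sum of the coefficients of `D ^ m` at `N` and
`N + 8 H`. The coefficient at `N = 3 ^ τ N₁` is 1 if `N₁` is a product of `2 ^ (r - 1) - 1` distinct
primes `≡ 5 (mod 8)` (Nicolas and Serre; starting files `H307R2/OP`), and the coefficient at `N + 8 H` is
0 if it is divisible by `3 ^ (2 ^ (r - 1) - 1)` exactly (starting files `H397R2/PP`). The latter is a
condition on `N₁` modulo a power `3 ^ B` of the size `exp ((log x) ^ (1 - δ))`, far beyond the range of
the theorem of Siegel and Walfisz. (2) It is reached with 302 of the prime factors, from dyadic blocks: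
if the sum of a character modulo `3 ^ B` over the primes of a block is larger than 0.99 of the number of
the primes, then the sums of its first powers are large, too, and by the Brun-Titchmarsh inequality the
mean square of all sums permits this only for characters of order at most 6, that is modulo 9. So the
product of 302 primes is in every class with at least half of the expected frequency; the class modulo
`8 * 2 ^ b` (that is, the class of `n` modulo `2 ^ b`) is prescribed with the first of them. (3) The upper
bounds for the multiplicities and for the tuples with an exceptional kernel of `24 n - 1` of `H307R2/OP`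
are proved in a class modulo `3 ^ B` for a fixed cofactor of 302 primes, with the full saving of `3 ^ B`:
since 3 does not divide `24 n - 1`, the congruence for `u` in `δ s ^ 2 + M u ^ 2 = 3 ^ (τ + 1) N₁` has
at most two solutions modulo `3 ^ (B + τ + 1)`. (4) General patterns with a function `u`: the polynomial
`f` of the pattern divides some `X ^ h (1 + X ^ H)`, and `(1 + X ^ H) ∑_{j < J} X ^ (j H) = 1 + X ^ (J H)`;
among `2 ^ (d + 1) + 1` numbers `J` with all digits in base 9 in `{0, 1, 2}` (the differences have even
valuations at 3) there are two for which the contributions of `u` and `κ` at the `2 ^ k m` are the same;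
the difference of the two relations is a pattern of two terms in a class modulo `2 ^ k`.
-/

namespace Pool.Agent.Results.MP_ebc808_nt.LinearPatterns

/-- the matrix `u (2 ^ k * m + r)` with the rows `r < 2 ^ k` and the columns `m = 0, 1, 2, …` has rank
at most `d` over the field with two elements -/
def RankAtMost (k d : ℕ) (u : ℕ → ZMod 2) : Prop :=
  ∃ α w : Fin d → ℕ → ZMod 2, ∀ m r : ℕ, r < 2 ^ k →
    u (2 ^ k * m + r) = ∑ i : Fin d, α i r * w i m

theorem result (L : ℕ) : ∃ C : ℕ, ∀ k d : ℕ, 2 * d + C ≤ k → ∀ b ρ : ℕ, ρ < 2 ^ b →
    ∀ ε : ℝ, 0 < ε → ∃ x0 : ℕ, ∀ x : ℕ, x0 ≤ x → ∀ c : Fin (L + 1) → ZMod 2, c ≠ 0 →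
      ∀ u : ℕ → ZMod 2, RankAtMost k d u → ∀ κ : ZMod 2,
      √x * Real.log x ^ (1 - ε) ≤ (((Finset.range (x + 1)).filter (fun n =>
        ∑ i : Fin (L + 1), c i * (Fintype.card (Nat.Partition (2 ^ b * (n + i) + ρ)) : ZMod 2) +
          u n = κ)).card : ℝ) := by
  obtain ⟨C, hC⟩ := Pool.Agent.D0H88.PT.final_mem L
  refine ⟨C, fun k d hkd b ρ hρ ε hε => ?_⟩
  obtain ⟨x0, hx0⟩ := hC k d hkd b ρ hρ ε hε
  exact ⟨x0, fun x hx c hc u hu κ => hx0 x hx c hc u hu κ⟩

end Pool.Agent.Results.MP_ebc808_nt.LinearPatterns
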