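import Pool.Agent.D0H10.RP.Fin

/-!
# Parity of the number of partitions whose parts are restricted randomly at the primes (MP_ebc808_nt)

Let `A` be a random set of positive integers for which the events `a ∈ A` are independent. Only the
primes have to be really random: for some `δ < 1/2`, `a^(-δ) ≤ P(a ∈ A) ≤ 1 - a^(-δ)` for all large
primes `a`. For all other integers `a` the probability of `a ∈ A` is arbitrary, also 0 or 1. So `A` may
be a deterministic set of numbers which are not primes, together with a random set of primes; for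
instance, `A` may consist of all positive integers with the exception of a random set of primes (with
about `x^(1-δ) / log x` elements up to `x`). Let `p_A(n)` be the number of the partitions of `n` with
all parts in `A`.

1. Almost surely, for all `L`, all parities `e_0, …, e_(L-1)` and all residue classes `r` modulo `M` the
number of the `n < N`, `n ≡ r (mod M)`, with `p_A(n + i) ≡ e_i (mod 2)` for all `i < L` is
`N / (M 2^L) + O(N^(1/2 + ε))` for all `ε > 0`. So the sets of the `n` with even and with odd `p_A(n)`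
have the density `1/2` (the statement of Parkin and Shanks for these sets of parts), with the error term
of coin tosses. For every series `f = ∑ f_j q^j` with integral coefficients and odd `f_0`, fixed in
advance, the same holds for the coefficients `c_n = ∑_j f_j p_A(n - j)` of `f ∑ p_A(n) q^n`, and for all
bounded weights `w_n`, `∑_{n < N} w_n (-1)^(c_n) = O(N^(1/2 + ε))` almost surely.

2. The mean square of `∑_{n ∈ I} w_n (-1)^(c_n)` is at most `C |I|` for all finite sets `I`.

3. For all large `n` (the bound does not depend on `f`) and all sets `T` of numbers `t < n`, the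
expectation of `(-1)^(c_n + ∑_{t ∈ T} c_t)` is at most `n^(-3)` in absolute value.

Proof. Let `c_n` be the parities, `n/2 < a < n`. The bit `1[a ∈ A]` enters into `∑_{t ∈ T} c_t` (with
`n = max T`) linearly, with the coefficient `∑_{t ∈ T} c_{t-a}`, which is determined by the bits below
`n / 2` and contains the term `c_{n-a}`. If `n` is a sum of two primes in `≫ n / log² n` ways (all even
`n` with few exceptions, by the circle method), then the coefficients are 1 for many primes `a` with a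
very large probability, because `1[n - a ∈ A]` enters into the coefficient of `a` linearly; the
expectation of the sign is then at most `exp(-n^(1-2δ-o(1)))`. For odd `n`, and after this for all even
`n`, the product over the primes `a` of the factors `1 - 2θ_a [coefficient = 1]` is expanded into
expectations of signs whose largest index is `n - a'` with `a'` prime, which are small if `n - a'`
belongs to the numbers treated before.
-/

set_option autoImplicit false

open scoped Classical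

namespace Pool.Agent.Results.MP_ebc808_nt.PartsRandomAtPrimes

open Finset Filter MeasureTheory ProbabilityTheory

/-- the number of the partitions of `n` all of whose parts are elements of `A` -/
noncomputable def partitionsInto (A : Set ℕ) (n : ℕ) : ℕ :=
  (Nat.Partition.restricted n (· ∈ A)).card

/-- the coefficient of `q ^ n` in `(∑ f_j q ^ j) * (∑ partitionsInto A m q ^ m)` -/
noncomputable def coef (f : ℕ → ℕ) (A : Set ℕ) (n : ℕ) : ℕ :=
  ∑ j ∈ range (n + 1), f j * partitionsInto A (n - j)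

/-- the number of the `n < N`, `n ≡ r (mod M)`, with `c (n + i) ≡ e i (mod 2)` for all `i < L` -/
noncomputable def patternCount (c : ℕ → ℕ) {L : ℕ} (e : Fin L → ZMod 2) (M r N : ℕ) : ℕ :=
  ((range N).filter (fun n => n ≡ r [MOD M] ∧ ∀ i : Fin L, (c (n + i) : ZMod 2) = e i)).card

section

open Pool.Agent.D0H10.PS
open Pool.Agent.D0H10.RP

variable {Ω : Type} [MeasurableSpace Ω] (P : Measure Ω) [IsProbabilityMeasure P] (A : Ω → Set ℕ)

/-- the bits of the random set -/
noncomputable def xi (a : ℕ) : Ω → ZMod 2 := Set.indicator {ω | a ∈ A ω} (fun _ => (1 : ZMod 2))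

omit [MeasurableSpace Ω] in
lemma xi_eq (a : ℕ) (ω : Ω) : xi A a ω = 1 ↔ a ∈ A ω := by
  unfold xi
  by_cases h : a ∈ A ω
  · rw [Set.indicator_of_mem (by exact h)]
    exact ⟨fun _ => h, fun _ => rfl⟩
  · rw [Set.indicator_of_notMem (by exact h)]
    exact ⟨fun h2 => absurd h2 (by decide), fun h2 => absurd h2 h⟩

omit [MeasurableSpace Ω] in
lemma set_eq (ω : Ω) : {a | bits (xi A) ω a = 1} = A ω := by
  ext a
  exact xi_eq A a ω

lemma cast_odd {m : ℕ} (h : Odd m) : (m : ZMod 2) = 1 := by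
  obtain ⟨k, rfl⟩ := h
  push_cast
  rw [show (2 : ZMod 2) = 0 from by decide]
  ring

lemma sg_cast (m : ℕ) : sg (m : ZMod 2) = (-1) ^ m := by
  rcases Nat.even_or_odd m with h | h
  · rw [h.neg_one_pow]
    obtain ⟨k, rfl⟩ := h
    rw [← two_mul]
    push_cast
    rw [show (2 : ZMod 2) = 0 from by decide, zero_mul, sg_zero]
  · rw [h.neg_one_pow, cast_odd h, sg_one]

omit [MeasurableSpace Ω] in
lemma conv_eq (f : ℕ → ℕ) (n : ℕ) (ω : Ω) :
    conv (fun j => (f j : ZMod 2)) n (bits (xi A) ω) = (coef f (A ω) n : ZMod 2) := by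
  unfold conv coef
  rw [set_eq]
  push_cast
  rfl

lemma coef_delta (B : Set ℕ) (n : ℕ) :
    coef (fun j => if j = 0 then 1 else 0) B n = partitionsInto B n := by
  unfold coef
  rw [sum_eq_single 0]
  · simp
  · intro j _ hj
    simp [hj]
  · intro h
    exact absurd (mem_range.2 (Nat.succ_pos n)) h

/-- the rates at the large primes -/
noncomputable def th (δ : ℝ) (a₀ a : ℕ) : ℝ := if a.Prime ∧ a₀ ≤ a then (a : ℝ) ^ (-δ) else 0

lemma coins_of (hA : ∀ a, MeasurableSet {ω | a ∈ A ω})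
    (hi : iIndepSet (fun a : ℕ => {ω | a ∈ A ω}) P) (δ : ℝ) (a₀ : ℕ)
    (h : ∀ a : ℕ, a₀ ≤ a → a.Prime → (a : ℝ) ^ (-δ) ≤ P.real {ω | a ∈ A ω} ∧
      P.real {ω | a ∈ A ω} ≤ 1 - (a : ℝ) ^ (-δ)) : Coins P (xi A) (th δ a₀) where
  meas a := measurable_const.indicator (hA a)
  ind := hi.iIndepFun_indicator
  nonneg a := by
    unfold th
    split_ifs with h1
    · have h2 := h a h1.2 h1.1
      exact ⟨by positivity, by linarith [h2.1, h2.2]⟩
    · norm_num
  rate a := by
    have e : {ω | xi A a ω = 1} = {ω | a ∈ A ω} := by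
      ext ω; exact xi_eq A a ω
    rw [e]
    unfold th
    split_ifs with h1
    · exact h a h1.2 h1.1
    · exact ⟨measureReal_nonneg, by rw [sub_zero]; exact measureReal_le_one⟩

omit [MeasurableSpace Ω] in
lemma signed (f : ℕ → ℕ) (w : ℕ → ℝ) (ω : Ω) (I : Finset ℕ) :
    ∑ n ∈ I, w n * sg (conv (fun j => (f j : ZMod 2)) n (bits (xi A) ω)) =
      ∑ n ∈ I, w n * (-1) ^ coef f (A ω) n := by
  refine sum_congr rfl fun n _ => ?_
  rw [conv_eq, sg_cast]

/-- the patterns -/
lemma normal (hA : ∀ a, MeasurableSet {ω | a ∈ A ω})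
    (hi : iIndepSet (fun a : ℕ => {ω | a ∈ A ω}) P) {δ : ℝ} (hδ : δ < 1 / 2)
    (h : ∀ᶠ a : ℕ in atTop, a.Prime → (a : ℝ) ^ (-δ) ≤ P.real {ω | a ∈ A ω} ∧
      P.real {ω | a ∈ A ω} ≤ 1 - (a : ℝ) ^ (-δ)) (f : ℕ → ℕ) (hf : Odd (f 0)) :
    ∀ᵐ ω ∂P, ∀ (L M r : ℕ) (e : Fin L → ZMod 2), 0 < M →
      Small fun N => (patternCount (coef f (A ω)) e M r N : ℝ) - N / (M * 2 ^ L) := by
  obtain ⟨a₀, ha₀⟩ := eventually_atTop.1 h
  have hb := coins_of P A hA hi δ a₀ ha₀
  have hth : ∀ a : ℕ, a₀ ≤ a → a.Prime → (a : ℝ) ^ (-δ) ≤ th δ a₀ a := by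
    intro a h1 h2
    unfold th
    rw [if_pos ⟨h2, h1⟩]
  set F : ℕ → ZMod 2 := fun j => (f j : ZMod 2) with hF
  have hF0 : F 0 = 1 := cast_odd hf
  have key : ∀ᵐ ω ∂P, ∀ (L M r : ℕ) (s : Fin L → ZMod 2), s ≠ 0 → Small (fun N : ℕ =>
      ∑ n ∈ range N, (if n ≡ r [MOD M] then (1 : ℝ) else 0) *
        sg (∑ i : Fin L, s i * conv F (n + i) (bits (xi A) ω))) := by
    rw [ae_all_iff]; intro L
    rw [ae_all_iff]; intro M
    rw [ae_all_iff]; intro r
    rw [ae_all_iff]; intro s
    by_cases hs0 : s = 0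
    · exact ae_of_all _ fun ω h => absurd hs0 h
    · obtain ⟨g, d, hg0, hg⟩ := char_conv F hF0 s hs0
      have h1 := (all_sums Ω P (xi A) (th δ a₀) δ hδ hb a₀ hth (conv g) (t_PART g hg0)).2
        (shw d (fun n => if n ≡ r [MOD M] then (1 : ℝ) else 0))
        (shw_le d _ fun n => by split_ifs <;> simp)
      filter_upwards [h1] with ω hω _
      have h2 := hω.shift d
      have e2 : (fun N : ℕ => ∑ n ∈ range N, (if n ≡ r [MOD M] then (1 : ℝ) else 0) *
          sg (∑ i : Fin L, s i * conv F (n + i) (bits (xi A) ω))) = fun N =>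
          ∑ n ∈ range (N + d), shw d (fun n => if n ≡ r [MOD M] then (1 : ℝ) else 0) n *
            sg (conv g n (bits (xi A) ω)) := by
        funext N
        rw [add_comm N d, sum_shw]
        refine sum_congr rfl fun n _ => ?_
        rw [hg]
      rw [e2]
      exact h2
  filter_upwards [key] with ω hω L M r e hM
  have h1 := pattern_small (fun n => conv F n (bits (xi A) ω)) L M r hM (hω L M r) e
  simp only [hF, conv_eq] at h1
  exact h1

end

/-- **Parity of partitions with parts which are random at the primes.** -/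
theorem result : ∀ (Ω : Type) [MeasurableSpace Ω] (P : Measure Ω) [IsProbabilityMeasure P]
    (A : Ω → Set ℕ), (∀ a, MeasurableSet {ω | a ∈ A ω}) →
    iIndepSet (fun a : ℕ => {ω | a ∈ A ω}) P → ∀ δ : ℝ, δ < 1 / 2 →
    (∀ᶠ a : ℕ in atTop, a.Prime → (a : ℝ) ^ (-δ) ≤ P.real {ω | a ∈ A ω} ∧
      P.real {ω | a ∈ A ω} ≤ 1 - (a : ℝ) ^ (-δ)) →
    -- 1. the partitions
    (∀ᵐ ω ∂P, ∀ (L M r : ℕ) (e : Fin L → ZMod 2), 0 < M → ∀ ε : ℝ, 0 < ε → ∀ᶠ N : ℕ in atTop,
      |(patternCount (partitionsInto (A ω)) e M r N : ℝ) - N / (M * 2 ^ L)| ≤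
        (N : ℝ) ^ (1 / 2 + ε)) ∧
    -- 2. with a series `f`
    (∀ f : ℕ → ℕ, Odd (f 0) →
      (∀ᵐ ω ∂P, ∀ (L M r : ℕ) (e : Fin L → ZMod 2), 0 < M → ∀ ε : ℝ, 0 < ε → ∀ᶠ N : ℕ in atTop,
        |(patternCount (coef f (A ω)) e M r N : ℝ) - N / (M * 2 ^ L)| ≤ (N : ℝ) ^ (1 / 2 + ε)) ∧
      (∀ w : ℕ → ℝ, (∀ n, |w n| ≤ 1) → ∀ᵐ ω ∂P, ∀ ε : ℝ, 0 < ε → ∀ᶠ N : ℕ in atTop,
        |∑ n ∈ range N, w n * (-1) ^ coef f (A ω) n| ≤ (N : ℝ) ^ (1 / 2 + ε)) ∧
      ∃ C : ℝ, ∀ w : ℕ → ℝ, (∀ n, |w n| ≤ 1) → ∀ I : Finset ℕ,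
        ∫ ω, (∑ n ∈ I, w n * (-1) ^ coef f (A ω) n) ^ 2 ∂P ≤ C * I.card) ∧
    -- 3. the correlations
    ∃ n₁ : ℕ, ∀ f : ℕ → ℕ, Odd (f 0) → ∀ n : ℕ, n₁ ≤ n → ∀ T : Finset ℕ, (∀ t ∈ T, t < n) →
      |∫ ω, (-1 : ℝ) ^ (coef f (A ω) n + ∑ t ∈ T, coef f (A ω) t) ∂P| ≤ 1 / (n : ℝ) ^ 3 := by
  intro Ω _ P _ A hA hi δ hδ h
  refine ⟨?_, fun f hf => ⟨?_, fun w hw => ?_, ?_⟩, ?_⟩
  · have h1 := normal P A hA hi hδ h (fun j => if j = 0 then 1 else 0) (by simp)
    filter_upwards [h1] with ω hω L M r e hM ε hε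
    have h2 := (hω L M r e hM).ev hε
    have e1 : coef (fun j => if j = 0 then 1 else 0) (A ω) = partitionsInto (A ω) :=
      funext (coef_delta (A ω))
    rw [e1] at h2
    exact h2
  · filter_upwards [normal P A hA hi hδ h f hf] with ω hω L M r e hM ε hε
    exact (hω L M r e hM).ev hε
  · obtain ⟨a₀, ha₀⟩ := eventually_atTop.1 h
    have h1 := (Pool.Agent.D0H10.RP.all_sums Ω P (xi A) (th δ a₀) δ hδ
      (coins_of P A hA hi δ a₀ ha₀) a₀ (fun a h1 h2 => by unfold th; rw [if_pos ⟨h2, h1⟩])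
      (Pool.Agent.D0H10.PS.conv (fun j => (f j : ZMod 2)))
      (Pool.Agent.D0H10.PS.t_PART _ (cast_odd hf))).2 w hw
    filter_upwards [h1] with ω hω ε hε
    simp only [signed] at hω
    exact hω.ev hε
  · obtain ⟨a₀, ha₀⟩ := eventually_atTop.1 h
    obtain ⟨C, -, hC⟩ := (Pool.Agent.D0H10.RP.all_sums Ω P (xi A) (th δ a₀) δ hδ
      (coins_of P A hA hi δ a₀ ha₀) a₀ (fun a h1 h2 => by unfold th; rw [if_pos ⟨h2, h1⟩])
      (Pool.Agent.D0H10.PS.conv (fun j => (f j : ZMod 2)))
      (Pool.Agent.D0H10.PS.t_PART _ (cast_odd hf))).1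
    refine ⟨C, fun w hw I => ?_⟩
    have h1 := hC w hw I
    simp only [signed] at h1
    exact h1
  · obtain ⟨a₀, ha₀⟩ := eventually_atTop.1 h
    obtain ⟨n₁, hn₁⟩ := Pool.Agent.D0H10.RP.all_BB Ω P (xi A) (th δ a₀) δ hδ
      (coins_of P A hA hi δ a₀ ha₀) a₀ (fun a h1 h2 => by unfold th; rw [if_pos ⟨h2, h1⟩])
    refine ⟨n₁, fun f hf n hn T hT => ?_⟩
    have h1 := hn₁ (Pool.Agent.D0H10.PS.conv (fun j => (f j : ZMod 2)))
      (Pool.Agent.D0H10.PS.t_PART _ (cast_odd hf)) n hn (insert n T) (mem_insert_self _ _) (by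
        intro t ht
        rw [mem_insert] at ht
        rcases ht with rfl | ht
        · exact le_rfl
        · exact (hT t ht).le)
    have hnT : n ∉ T := fun h2 => lt_irrefl _ (hT n h2)
    refine le_trans (le_of_eq ?_) h1
    congr 1
    refine integral_congr_ae (ae_of_all _ fun ω => ?_)
    simp only
    rw [sum_insert hnT, conv_eq, sum_congr rfl fun t _ => conv_eq A f t ω, ← Nat.cast_sum,
      ← Nat.cast_add, sg_cast]

end Pool.Agent.Results.MP_ebc808_nt.PartsRandomAtPrimes
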