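import Pool.Agent.D0H10.PS.Fin

/-!
# Parity of the number of partitions into parts from a random set (MP_ebc808_nt)

Let `A` be a random set of positive integers for which the events `a ∈ A` are independent, and let
`p_A(n)` be the number of the partitions of `n` with all parts in `A`.

1. (Almost surely.) Let `κ > 1` and `(log a)^κ / a ≤ P(a ∈ A) ≤ 1 - (log a)^κ / a` for all large `a`
(small `a` may belong to `A` with any probability, also with probability 0 or 1). So `A` may be a thin
random set, with about `(log x)^(κ+1) / (κ+1)` elements up to `x`, and it may also consist of all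
positive integers with the exception of such a thin random set. Then almost surely the sequence of the
parities of `p_A(n)` is a normal sequence, also along every arithmetic progression: for all `L`, all
parities `e_0, …, e_(L-1)` and all residue classes `r` modulo `M` the set of the `n ≡ r (mod M)` with
`p_A(n + i) ≡ e_i (mod 2)` for all `i < L` has the natural density `1 / (M 2^L)`. In particular the sets
of the `n` with even and with odd `p_A(n)` have the density `1/2` (the statement of Parkin and Shanks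
for these sets of parts). More generally, for every series `f = ∑ f_j q^j` with integral coefficients
and odd `f_0`, fixed in advance, the same holds for the coefficients `c_n = ∑_j f_j p_A(n - j)` of
`f ∑ p_A(n) q^n` (for instance `f = ∑ p(n) q^n`: pairs of a partition and of a partition with all parts
in `A`), and for all bounded weights `w_n`, `∑_{n < N} w_n (-1)^(c_n) = o(N)`.

2. (In mean square.) The condition `a · min(P(a ∈ A), 1 - P(a ∈ A)) → ∞` is sufficient for
`(1/N) ∑_{n < N} w_n (-1)^(c_n) → 0` in mean square and for the convergence to `1/2`, in mean square, of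
the proportion of the `n < N` for which `c_n` is odd.

Proof. In a block `[x, 2x)` the parities are affine functions of the bits `1[a ∈ A]`, `x ≤ a < 2x`, with
the coefficients `c_{n - a}`, which are determined by the bits below `x`. The mean square of a signed sum
over the block, given the past, is bounded by the inverse of the number of the odd `c_j`, `j < x / 2^s`
(an affine function with `k` odd coefficients is nearly equidistributed, two of them are nearly
independent, for most pairs), and the same second moment shows that this number of odd values multiplies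
by 64 from `y` to `4 y` with a large probability, until it has the order `y`. Hence the expectation of
its inverse is `O(1/x)`.
-/

set_option autoImplicit false

open scoped Classical

namespace Pool.Agent.Results.MP_ebc808_nt.RandomSetsOfParts

open Finset Filter MeasureTheory ProbabilityTheory

/-- the number of the partitions of `n` all of whose parts are elements of `A` -/
noncomputable def partitionsInto (A : Set ℕ) (n : ℕ) : ℕ :=
  (Nat.Partition.restricted n (· ∈ A)).card

/-- the coefficient of `q ^ n` in `(∑ f_j q ^ j) * (∑ partitionsInto A m q ^ m)` -/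
noncomputable def coef (f : ℕ → ℕ) (A : Set ℕ) (n : ℕ) : ℕ :=
  ∑ j ∈ range (n + 1), f j * partitionsInto A (n - j)

/-- the set `S` of natural numbers has the natural density `δ` -/
def HasDensity (S : Set ℕ) (δ : ℝ) : Prop :=
  Tendsto (fun N : ℕ => (((range N).filter (· ∈ S)).card : ℝ) / (N : ℝ)) atTop (nhds δ)

section

open Pool.Agent.D0H10.PS

variable {Ω : Type} [MeasurableSpace Ω] (P : Measure Ω) [IsProbabilityMeasure P] (A : Ω → Set ℕ)

/-- the bits of the random set -/
noncomputable def xi (a : ℕ) : Ω → ZMod 2 := Set.indicator {ω | a ∈ A ω} (fun _ => (1 : ZMod 2))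

omit [MeasurableSpace Ω] in
lemma xi_eq (a : ℕ) (ω : Ω) : xi A a ω = 1 ↔ a ∈ A ω := by
  unfold xi
  by_cases h : a ∈ A ω
  · rw [Set.indicator_of_mem (by exact h)]
    exact ⟨fun _ => h, fun _ => rfl⟩
  · rw [Set.indicator_of_notMem (by exact h)]
    exact ⟨fun h2 => absurd h2 (by decide), fun h2 => absurd h2 h⟩

omit [MeasurableSpace Ω] in
lemma set_eq (ω : Ω) : {a | bits (xi A) ω a = 1} = A ω := by
  ext a
  exact xi_eq A a ω

lemma cast_odd {m : ℕ} (h : Odd m) : (m : ZMod 2) = 1 := by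
  obtain ⟨k, rfl⟩ := h
  push_cast
  rw [show (2 : ZMod 2) = 0 from by decide]
  ring

lemma sg_cast (m : ℕ) : sg (m : ZMod 2) = (-1) ^ m := by
  rcases Nat.even_or_odd m with h | h
  · rw [h.neg_one_pow]
    obtain ⟨k, rfl⟩ := h
    rw [← two_mul]
    push_cast
    rw [show (2 : ZMod 2) = 0 from by decide, zero_mul, sg_zero]
  · rw [h.neg_one_pow, cast_odd h, sg_one]

omit [MeasurableSpace Ω] in
lemma conv_eq (f : ℕ → ℕ) (n : ℕ) (ω : Ω) :
    conv (fun j => (f j : ZMod 2)) n (bits (xi A) ω) = (coef f (A ω) n : ZMod 2) := by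
  unfold conv coef
  rw [set_eq]
  push_cast
  rfl

/-- the distance of the probability from 0 and 1 -/
noncomputable def pm (a : ℕ) : ℝ := min (P.real {ω | a ∈ A ω}) (1 - P.real {ω | a ∈ A ω})

lemma block_ne (k : ℕ) : (Ico (2 ^ k) (2 ^ (k + 1)) : Finset ℕ).Nonempty :=
  ⟨2 ^ k, by rw [mem_Ico]; exact ⟨le_rfl, Nat.pow_lt_pow_right (by norm_num) (by omega)⟩⟩

/-- the minimum over the block, or `1/2` if it is not positive -/
noncomputable def tk (k : ℕ) : ℝ :=
  if 0 < (Ico (2 ^ k) (2 ^ (k + 1))).inf' (block_ne k) (pm P A) then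
    (Ico (2 ^ k) (2 ^ (k + 1))).inf' (block_ne k) (pm P A) else 1 / 2

omit [IsProbabilityMeasure P] in
lemma pm_le (a : ℕ) : pm P A a ≤ 1 / 2 := by
  unfold pm
  rcases le_total (P.real {ω | a ∈ A ω}) (1 / 2) with h | h
  · exact (min_le_left _ _).trans h
  · exact (min_le_right _ _).trans (by linarith)

omit [IsProbabilityMeasure P] in
lemma tk_pos (k : ℕ) : 0 < tk P A k ∧ tk P A k ≤ 1 / 2 := by
  unfold tk
  split_ifs with h
  · refine ⟨h, (Finset.inf'_le (pm P A) (b := 2 ^ k) ?_).trans (pm_le P A _)⟩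
    rw [mem_Ico]
    exact ⟨le_rfl, Nat.pow_lt_pow_right (by norm_num) (by omega)⟩
  · norm_num

omit [IsProbabilityMeasure P] in
lemma le_tk {k : ℕ} {c : ℝ} (hc : 0 < c) (h : ∀ a ∈ Ico (2 ^ k) (2 ^ (k + 1)), c ≤ pm P A a) :
    c ≤ tk P A k := by
  unfold tk
  have h1 : c ≤ (Ico (2 ^ k) (2 ^ (k + 1))).inf' (block_ne k) (pm P A) := by
    rw [Finset.le_inf'_iff]
    exact h
  rw [if_pos (lt_of_lt_of_le hc h1)]
  exact h1

lemma le_two_pow {n0 k : ℕ} (h : n0 ≤ k) : n0 ≤ 2 ^ k := h.trans (Nat.lt_two_pow_self).le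

omit [IsProbabilityMeasure P] in
lemma bits_of (hA : ∀ a, MeasurableSet {ω | a ∈ A ω}) (hi : iIndepSet (fun a : ℕ => {ω | a ∈ A ω}) P)
    (hp : ∀ᶠ a : ℕ in atTop, 0 < pm P A a) : Bits P (xi A) (tk P A) where
  meas a := measurable_const.indicator (hA a)
  ind := hi.iIndepFun_indicator
  pos k := tk_pos P A k
  rate := by
    obtain ⟨n0, hn0⟩ := eventually_atTop.1 hp
    refine ⟨n0, fun k a hk h1 h2 => ?_⟩
    have e : {ω | xi A a ω = 1} = {ω | a ∈ A ω} := by
      ext ω; exact xi_eq A a ω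
    rw [e]
    have h3 : 0 < (Ico (2 ^ k) (2 ^ (k + 1))).inf' (block_ne k) (pm P A) := by
      rw [Finset.lt_inf'_iff]
      intro b hb
      rw [mem_Ico] at hb
      exact hn0 b ((le_two_pow hk).trans hb.1)
    have h4 : tk P A k ≤ pm P A a := by
      unfold tk
      rw [if_pos h3]
      exact Finset.inf'_le (pm P A) (mem_Ico.2 ⟨h1, h2⟩)
    have h5 : pm P A a ≤ P.real {ω | a ∈ A ω} := min_le_left _ _
    have h6 : pm P A a ≤ 1 - P.real {ω | a ∈ A ω} := min_le_right _ _
    exact ⟨h4.trans h5, by linarith⟩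

omit [IsProbabilityMeasure P] in
/-- the condition with `(log a)^κ / a` -/
lemma summable_of {κ : ℝ} (hκ : 1 < κ)
    (h : ∀ᶠ a : ℕ in atTop, Real.log a ^ κ / a ≤ P.real {ω | a ∈ A ω} ∧
      P.real {ω | a ∈ A ω} ≤ 1 - Real.log a ^ κ / a) :
    (∀ᶠ a : ℕ in atTop, 0 < pm P A a) ∧ Summable (fun k => 1 / (2 ^ k * tk P A k)) := by
  obtain ⟨n0, hn0⟩ := eventually_atTop.1 h
  have hlog2 : 0 < Real.log 2 := Real.log_pos (by norm_num)
  have hpm : ∀ a, n0 ≤ a → Real.log a ^ κ / a ≤ pm P A a := fun a ha =>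
    le_min (hn0 a ha).1 (by linarith [(hn0 a ha).2])
  refine ⟨?_, ?_⟩
  · filter_upwards [eventually_ge_atTop (max n0 2)] with a ha
    have h1 : n0 ≤ a := (le_max_left _ _).trans ha
    have h2 : 2 ≤ a := (le_max_right _ _).trans ha
    have h3 : (1 : ℝ) < a := by exact_mod_cast h2
    refine lt_of_lt_of_le ?_ (hpm a h1)
    have := Real.log_pos h3
    positivity
  · have hs : Summable (fun k : ℕ => 2 / Real.log 2 ^ κ * (1 / (k : ℝ) ^ κ)) :=
      (Real.summable_one_div_nat_rpow.2 hκ).mul_left _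
    refine Summable.of_norm_bounded_eventually_nat hs ?_
    filter_upwards [eventually_ge_atTop (max n0 1)] with k hk
    have hk1 : n0 ≤ k := (le_max_left _ _).trans hk
    have hk2 : 1 ≤ k := (le_max_right _ _).trans hk
    have hk3 : (0 : ℝ) < k := by exact_mod_cast hk2
    have hc : ((k : ℝ) * Real.log 2) ^ κ / 2 ^ (k + 1) ≤ tk P A k := by
      refine le_tk P A (by positivity) fun a ha => ?_
      rw [mem_Ico] at ha
      have h1 : (2 : ℝ) ^ k ≤ a := by exact_mod_cast ha.1
      have h2 : (a : ℝ) ≤ 2 ^ (k + 1) := by exact_mod_cast ha.2.le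
      have h0 : (0 : ℝ) < a := lt_of_lt_of_le (by positivity) h1
      have h3 : (k : ℝ) * Real.log 2 ≤ Real.log a := by
        rw [← Real.log_pow]
        exact Real.log_le_log (by positivity) h1
      refine le_trans ?_ (hpm a ((le_two_pow hk1).trans ha.1))
      have h4 : ((k : ℝ) * Real.log 2) ^ κ ≤ Real.log a ^ κ :=
        Real.rpow_le_rpow (by positivity) h3 (by linarith)
      exact div_le_div₀ (le_trans (by positivity) h4) h4 h0 h2
    have ht := (tk_pos P A k).1
    have hc0 : 0 < ((k : ℝ) * Real.log 2) ^ κ / 2 ^ (k + 1) := by positivity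
    rw [Real.norm_of_nonneg (by positivity)]
    calc 1 / (2 ^ k * tk P A k) ≤ 1 / (2 ^ k * (((k : ℝ) * Real.log 2) ^ κ / 2 ^ (k + 1))) := by
          gcongr
      _ = 2 / Real.log 2 ^ κ * (1 / (k : ℝ) ^ κ) := by
          rw [Real.mul_rpow hk3.le hlog2.le, pow_succ]
          have h5 : (k : ℝ) ^ κ ≠ 0 := (Real.rpow_pos_of_pos hk3 _).ne'
          have h6 : Real.log 2 ^ κ ≠ 0 := (Real.rpow_pos_of_pos hlog2 _).ne'
          field_simp

omit [IsProbabilityMeasure P] in
/-- the condition `a · min(P, 1 - P) → ∞` -/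
lemma tendsto_of (h : Tendsto (fun a : ℕ => (a : ℝ) * pm P A a) atTop atTop) :
    (∀ᶠ a : ℕ in atTop, 0 < pm P A a) ∧ Tendsto (fun k => 2 ^ k * tk P A k) atTop atTop := by
  refine ⟨?_, ?_⟩
  · filter_upwards [h.eventually_gt_atTop 0, eventually_gt_atTop 0] with a ha ha0
    have h0 : (0 : ℝ) < a := by exact_mod_cast ha0
    exact (pos_iff_pos_of_mul_pos ha).1 h0
  · rw [tendsto_atTop]
    intro b
    set K : ℝ := max b 1 with hK
    have hK0 : 0 < K := lt_of_lt_of_le one_pos (le_max_right _ _)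
    obtain ⟨n0, hn0⟩ := eventually_atTop.1 (h.eventually_ge_atTop (2 * K))
    filter_upwards [eventually_ge_atTop n0] with k hk
    have h1 : K / 2 ^ k ≤ tk P A k := by
      refine le_tk P A (by positivity) fun a ha => ?_
      rw [mem_Ico] at ha
      have h2 : (a : ℝ) ≤ 2 ^ (k + 1) := by exact_mod_cast ha.2.le
      have h3 : (2 : ℝ) ^ k ≤ a := by exact_mod_cast ha.1
      have h0 : (0 : ℝ) < a := lt_of_lt_of_le (by positivity) h3
      have h4 := hn0 a ((le_two_pow hk).trans ha.1)
      rw [div_le_iff₀ (by positivity)]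
      have hpm0 : 0 < pm P A a := (pos_iff_pos_of_mul_pos (lt_of_lt_of_le (by positivity) h4)).1 h0
      have h5 : (a : ℝ) * pm P A a ≤ 2 ^ (k + 1) * pm P A a := by gcongr
      rw [pow_succ] at h5
      linarith
    have h2 : K ≤ 2 ^ k * tk P A k := by
      rw [div_le_iff₀ (by positivity)] at h1
      linarith
    exact (le_max_left _ _).trans h2

lemma hasDensity_of {δ : ℝ} (S : Set ℕ) (p : ℕ → Prop) [DecidablePred p] (hp : ∀ n, n ∈ S ↔ p n)
    (h : Tendsto (fun N : ℕ => (((range N).filter p).card : ℝ) / (N : ℝ)) atTop (nhds δ)) :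
    HasDensity S δ := by
  unfold HasDensity
  refine h.congr fun N => ?_
  have e : (range N).filter p = (range N).filter (· ∈ S) := by
    ext n
    rw [mem_filter, mem_filter, hp]
  rw [e]

/-- the patterns -/
lemma normal (hA : ∀ a, MeasurableSet {ω | a ∈ A ω})
    (hi : iIndepSet (fun a : ℕ => {ω | a ∈ A ω}) P) {κ : ℝ} (hκ : 1 < κ)
    (h : ∀ᶠ a : ℕ in atTop, Real.log a ^ κ / a ≤ P.real {ω | a ∈ A ω} ∧
      P.real {ω | a ∈ A ω} ≤ 1 - Real.log a ^ κ / a) (f : ℕ → ℕ) (hf : Odd (f 0)) :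
    ∀ᵐ ω ∂P, ∀ (L M r : ℕ) (e : Fin L → ZMod 2), 0 < M →
      HasDensity {n | n ≡ r [MOD M] ∧ ∀ i : Fin L, (coef f (A ω) (n + i) : ZMod 2) = e i}
        (1 / (M * 2 ^ L)) := by
  obtain ⟨hp, hs⟩ := summable_of P A hκ h
  have hb := bits_of P A hA hi hp
  set F : ℕ → ZMod 2 := fun j => (f j : ZMod 2) with hF
  have hF0 : F 0 = 1 := cast_odd hf
  have key : ∀ᵐ ω ∂P, ∀ (L M r : ℕ) (s : Fin L → ZMod 2), s ≠ 0 → Tendsto (fun N : ℕ =>
      (∑ n ∈ range N, (if n ≡ r [MOD M] then (1 : ℝ) else 0) *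
        sg (∑ i : Fin L, s i * conv F (n + i) (bits (xi A) ω))) / (N : ℝ)) atTop (nhds 0) := by
    rw [ae_all_iff]; intro L
    rw [ae_all_iff]; intro M
    rw [ae_all_iff]; intro r
    rw [ae_all_iff]; intro s
    by_cases hs0 : s = 0
    · exact ae_of_all _ fun ω h => absurd hs0 h
    · obtain ⟨g, d, hg0, hg⟩ := char_conv F hF0 s hs0
      have h1 := all_AS Ω P (xi A) (tk P A) (conv g) hb (t_PART g hg0) hs
        (shw d (fun n => if n ≡ r [MOD M] then (1 : ℝ) else 0))
        (shw_le d _ fun n => by split_ifs <;> simp)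
      filter_upwards [h1] with ω hω _
      have h2 := shift_tendsto d (fun n => if n ≡ r [MOD M] then (1 : ℝ) else 0)
        (fun n => sg (conv g n (bits (xi A) ω))) hω
      refine h2.congr fun N => ?_
      congr 1
      refine sum_congr rfl fun n _ => ?_
      rw [hg]
  filter_upwards [key] with ω hω L M r e hM
  have h1 := pattern_density (fun n => conv F n (bits (xi A) ω)) L M r hM (hω L M r) e
  simp only [hF, conv_eq] at h1
  exact hasDensity_of _ _ (fun n => Iff.rfl) h1

omit [MeasurableSpace Ω] in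
lemma signed (f : ℕ → ℕ) (w : ℕ → ℝ) (ω : Ω) (N : ℕ) :
    ∑ n ∈ range N, w n * sg (conv (fun j => (f j : ZMod 2)) n (bits (xi A) ω)) =
      ∑ n ∈ range N, w n * (-1) ^ coef f (A ω) n := by
  refine sum_congr rfl fun n _ => ?_
  rw [conv_eq, sg_cast]

lemma coef_delta (B : Set ℕ) (n : ℕ) :
    coef (fun j => if j = 0 then 1 else 0) B n = partitionsInto B n := by
  unfold coef
  rw [sum_eq_single 0]
  · simp
  · intro j _ hj
    simp [hj]
  · intro h
    exact absurd (mem_range.2 (Nat.succ_pos n)) h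

/-- the proportion of the odd terms -/
lemma odd_count (c : ℕ → ℕ) {N : ℕ} (hN : 0 < N) :
    (((range N).filter (fun n => Odd (c n))).card : ℝ) / N - 1 / 2 =
      -(1 / 2) * ((∑ n ∈ range N, (1 : ℝ) * (-1) ^ c n) / N) := by
  have hN' : (0 : ℝ) < N := by exact_mod_cast hN
  have h1 : ∑ n ∈ range N, (1 : ℝ) * (-1) ^ c n = N -
      2 * (((range N).filter (fun n => Odd (c n))).card : ℝ) := by
    rw [card_filter]
    push_cast
    rw [mul_sum]
    have h2 : (N : ℝ) = ∑ n ∈ range N, (1 : ℝ) := by simp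
    rw [h2, ← sum_sub_distrib]
    refine sum_congr rfl fun n _ => ?_
    rcases Nat.even_or_odd (c n) with h | h
    · rw [h.neg_one_pow, if_neg (Nat.not_odd_iff_even.2 h)]; norm_num
    · rw [h.neg_one_pow, if_pos h]; norm_num
  rw [h1]
  field_simp
  ring

end

/-- **Parity of partitions into parts from a random set.** -/
theorem result : ∀ (Ω : Type) [MeasurableSpace Ω] (P : Measure Ω) [IsProbabilityMeasure P]
    (A : Ω → Set ℕ), (∀ a, MeasurableSet {ω | a ∈ A ω}) →
    iIndepSet (fun a : ℕ => {ω | a ∈ A ω}) P →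
    -- 1. almost surely
    (∀ κ : ℝ, 1 < κ → (∀ᶠ a : ℕ in atTop, Real.log a ^ κ / a ≤ P.real {ω | a ∈ A ω} ∧
        P.real {ω | a ∈ A ω} ≤ 1 - Real.log a ^ κ / a) →
      (∀ᵐ ω ∂P, ∀ (L M r : ℕ) (e : Fin L → ZMod 2), 0 < M →
        HasDensity {n | n ≡ r [MOD M] ∧ ∀ i : Fin L, (partitionsInto (A ω) (n + i) : ZMod 2) = e i}
          (1 / (M * 2 ^ L))) ∧
      ∀ f : ℕ → ℕ, Odd (f 0) →
        (∀ᵐ ω ∂P, ∀ (L M r : ℕ) (e : Fin L → ZMod 2), 0 < M →
          HasDensity {n | n ≡ r [MOD M] ∧ ∀ i : Fin L, (coef f (A ω) (n + i) : ZMod 2) = e i}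
            (1 / (M * 2 ^ L))) ∧
        ∀ w : ℕ → ℝ, (∀ n, |w n| ≤ 1) → ∀ᵐ ω ∂P, Tendsto (fun N : ℕ =>
          (∑ n ∈ range N, w n * (-1) ^ coef f (A ω) n) / (N : ℝ)) atTop (nhds 0)) ∧
    -- 2. in mean square
    (Tendsto (fun a : ℕ => (a : ℝ) * min (P.real {ω | a ∈ A ω}) (1 - P.real {ω | a ∈ A ω}))
        atTop atTop →
      ∀ f : ℕ → ℕ, Odd (f 0) →
        Tendsto (fun N : ℕ => ∫ ω, ((((range N).filter (fun n => Odd (coef f (A ω) n))).card : ℝ) /
          (N : ℝ) - 1 / 2) ^ 2 ∂P) atTop (nhds 0) ∧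
        ∀ w : ℕ → ℝ, (∀ n, |w n| ≤ 1) → Tendsto (fun N : ℕ =>
          ∫ ω, ((∑ n ∈ range N, w n * (-1) ^ coef f (A ω) n) / (N : ℝ)) ^ 2 ∂P)
            atTop (nhds 0)) := by
  intro Ω _ P _ A hA hi
  refine ⟨fun κ hκ h => ⟨?_, fun f hf => ⟨normal P A hA hi hκ h f hf, fun w hw => ?_⟩⟩,
    fun h f hf => ?_⟩
  · have h1 := normal P A hA hi hκ h (fun j => if j = 0 then 1 else 0) (by simp)
    simp only [coef_delta] at h1
    exact h1
  · obtain ⟨hp, hs⟩ := summable_of P A hκ h
    have h1 := Pool.Agent.D0H10.PS.all_AS Ω P (xi A) (tk P A)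
      (Pool.Agent.D0H10.PS.conv (fun j => (f j : ZMod 2))) (bits_of P A hA hi hp)
      (Pool.Agent.D0H10.PS.t_PART _ (cast_odd hf)) hs w hw
    simp only [signed] at h1
    exact h1
  · obtain ⟨hp, ht⟩ := tendsto_of P A h
    have h1 : ∀ w : ℕ → ℝ, (∀ n, |w n| ≤ 1) → Tendsto (fun N : ℕ =>
        ∫ ω, ((∑ n ∈ range N, w n * (-1) ^ coef f (A ω) n) / (N : ℝ)) ^ 2 ∂P)
        atTop (nhds 0) := by
      intro w hw
      have h2 := Pool.Agent.D0H10.PS.all_MS Ω P (xi A) (tk P A)
        (Pool.Agent.D0H10.PS.conv (fun j => (f j : ZMod 2))) (bits_of P A hA hi hp)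
        (Pool.Agent.D0H10.PS.t_PART _ (cast_odd hf)) ht w hw
      simp only [signed] at h2
      exact h2
    refine ⟨?_, h1⟩
    have h3 := (h1 (fun _ => 1) (fun _ => by simp)).const_mul (1 / 4 : ℝ)
    rw [mul_zero] at h3
    refine h3.congr' ?_
    filter_upwards [eventually_gt_atTop 0] with N hN
    rw [← integral_const_mul]
    refine integral_congr_ae (ae_of_all _ fun ω => ?_)
    simp only
    rw [odd_count _ hN]
    ring

end Pool.Agent.Results.MP_ebc808_nt.RandomSetsOfParts
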